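import Pool.Agent.K3h53.UG.Stm5
import Pool.Agent.K3h55.UG.Geo

/-! UG project (helper53, MP_209724_lc), brick GEO6: the geometry of a complete intersection near a
good direction. -/

set_option autoImplicit false

namespace Pool.Agent.K3h57.UG

open MvPolynomial Filter Topology Metric Set Pool.Agent.K3h22.EX Pool.Agent.K3h53.UG

/-- uniform constants for finitely many statements -/
theorem unif {τ : Type} (T : Finset τ) (P : τ → ℝ → ℝ → ℝ → Prop)
    (hmono : ∀ F ε C R₀ ε' C' R₀', P F ε C R₀ → ε' ≤ ε → C ≤ C' → R₀ ≤ R₀' → P F ε' C' R₀')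
    (h : ∀ F ∈ T, ∃ ε C R₀ : ℝ, 0 < ε ∧ 0 ≤ C ∧ 1 ≤ R₀ ∧ P F ε C R₀) :
    ∃ ε C R₀ : ℝ, 0 < ε ∧ 0 ≤ C ∧ 1 ≤ R₀ ∧ ∀ F ∈ T, P F ε C R₀ := by
  classical
  induction T using Finset.induction_on with
  | empty => exact ⟨1, 0, 1, one_pos, le_rfl, le_rfl, by simp⟩
  | insert F T hF ih =>
    obtain ⟨ε, C, R₀, h1, h2, h3, h4⟩ := ih fun F' hF' => h F' (Finset.mem_insert_of_mem hF')
    obtain ⟨ε', C', R₀', h5, h6, h7, h8⟩ := h F (Finset.mem_insert_self F T)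
    refine ⟨min ε ε', max C C', max R₀ R₀', lt_min h1 h5, le_max_of_le_left h2,
      le_max_of_le_left h3, fun F' hF' => ?_⟩
    rcases Finset.mem_insert.1 hF' with rfl | hF'
    · exact hmono _ _ _ _ _ _ _ h8 (min_le_right _ _) (le_max_right _ _) (le_max_right _ _)
    · exact hmono _ _ _ _ _ _ _ (h4 F' hF') (min_le_left _ _) (le_max_left _ _) (le_max_left _ _)

theorem eval_lsub {n s r : ℕ} (e : Fin s ⊕ Fin r ≃ Fin n) (σ : Fin s → Fin r → ℝ)
    (l : Fin s → ℂ) (θ : Fin r → ℂ) (h : MvPolynomial (Fin s) ℂ) :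
    eval (xr e σ l θ) (lsub e σ h) = eval l h := by
  have h1 : ((aeval (xr e σ l θ) : MvPolynomial (Fin n) ℂ →ₐ[ℂ] ℂ).comp (lsub e σ)) =
      (aeval l : MvPolynomial (Fin s) ℂ →ₐ[ℂ] ℂ) := by
    apply MvPolynomial.algHom_ext
    intro j
    simp [lsub, xr]
  have h2 := DFunLike.congr_fun h1 h
  rw [AlgHom.comp_apply] at h2
  simpa [MvPolynomial.aeval_eq_eval] using h2

/-- a polynomial which vanishes on a ball is zero -/
theorem zero_of_ball {s : ℕ} (h : MvPolynomial (Fin s) ℂ) (c : Fin s → ℂ) (ρ : ℝ) (hρ : 0 < ρ)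
    (h0 : ∀ l ∈ ball c ρ, eval l h = 0) : h = 0 := by
  refine MvPolynomial.funext_set (fun i => ball (c i) ρ) (fun i => ?_) fun x hx => ?_
  · exact infinite_of_mem_nhds (c i) (ball_mem_nhds (c i) hρ)
  · rw [map_zero]
    apply h0
    rw [ball_pi c hρ]
    exact hx

theorem norm_xr_le {n s r : ℕ} (e : Fin s ⊕ Fin r ≃ Fin n) (σ : Fin s → Fin r → ℝ)
    (l : Fin s → ℂ) (θ : Fin r → ℂ) :
    ‖xr e σ l θ‖ ≤ ‖l‖ + (1 + ∑ j, ∑ b, |σ j b|) * ‖θ‖ := by
  have hs : 0 ≤ ∑ j, ∑ b, |σ j b| :=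
    Finset.sum_nonneg fun j _ => Finset.sum_nonneg fun b _ => abs_nonneg _
  rw [pi_norm_le_iff_of_nonneg (by positivity)]
  intro i
  unfold xr
  rcases e.symm i with j | b
  · simp only [Sum.elim_inl]
    refine (norm_add_le _ _).trans (add_le_add (norm_le_pi_norm l j) ?_)
    refine (norm_sum_le _ _).trans ?_
    have h1 : ∑ b, ‖((σ j b : ℝ) : ℂ) * θ b‖ ≤ ∑ b, |σ j b| * ‖θ‖ := by
      refine Finset.sum_le_sum fun b _ => ?_
      rw [norm_mul, Complex.norm_real, Real.norm_eq_abs]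
      exact mul_le_mul_of_nonneg_left (norm_le_pi_norm θ b) (abs_nonneg _)
    refine h1.trans ?_
    rw [← Finset.sum_mul]
    apply mul_le_mul_of_nonneg_right _ (norm_nonneg _)
    have h2 : ∑ b, |σ j b| ≤ ∑ j, ∑ b, |σ j b| :=
      Finset.single_le_sum (f := fun j => ∑ b, |σ j b|)
        (fun j _ => Finset.sum_nonneg fun b _ => abs_nonneg _) (Finset.mem_univ j)
    linarith
  · simp only [Sum.elim_inr]
    have h1 := norm_le_pi_norm θ b
    have h2 := norm_nonneg l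
    have h3 := norm_nonneg θ
    nlinarith [mul_nonneg hs h3]

/-- the property of one polynomial -/
def PP {n s r : ℕ} (e : Fin s ⊕ Fin r ≃ Fin n) (w : Fin n → ℕ)
    (F : Fin r → MvPolynomial (Fin n) ℂ) (σ : Fin s → Fin r → ℝ) (lam : Fin s → ℂ)
    (θ : Fin r → ℂ) (δ : ℝ) (G : MvPolynomial (Fin n) ℂ) (ε C R₀ : ℝ) : Prop :=
  ∀ R : ℝ, R₀ ≤ R → 1 ≤ R → ∀ l ∈ ball (cen e w R lam) (ε * R), ∀ t : Fin r → ℂ,
    (∀ b, ‖t b - R * θ b‖ ≤ δ * R) → (∀ i, eval (xr e σ l t) (F i) = 0) →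
      eval (xr e σ l t) G ≠ 0 ∧ |Real.log ‖eval (xr e σ l t) G‖| ≤ C * (1 + Real.log R)

theorem one_poly {n s r : ℕ} (e : Fin s ⊕ Fin r ≃ Fin n) (w : Fin n → ℕ)
    (F : Fin r → MvPolynomial (Fin n) ℂ) (σ : Fin s → Fin r → ℝ) (lam : Fin s → ℂ)
    (θ : Fin r → ℂ) (δ : ℝ) (hδ : 0 < δ) (G G' : MvPolynomial (Fin n) ℂ)
    (h : MvPolynomial (Fin s) ℂ)
    (hid : ∀ (l : Fin s → ℂ) (t : Fin r → ℂ), (∀ i, eval (xr e σ l t) (F i) = 0) →
      eval (xr e σ l t) G * eval (xr e σ l t) G' = eval l h)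
    (ε c R₁ : ℝ) (hε : 0 < ε) (hc0 : 0 < c) (hR₁ : 1 ≤ R₁)
    (hlow : ∀ R : ℝ, R₁ ≤ R → ∀ l ∈ ball (cen e w R lam) (ε * R), c ≤ ‖eval l h‖) :
    ∃ ε C R₀ : ℝ, 0 < ε ∧ 0 ≤ C ∧ 1 ≤ R₀ ∧ PP e w F σ lam θ δ G ε C R₀ := by
  obtain ⟨W, hW⟩ : ∃ W : ℕ, W = 1 + ∑ i, w i := ⟨_, rfl⟩
  set S : ℝ := 1 + ∑ j, ∑ b, |σ j b| with hS
  have hS0 : 0 ≤ S := by
    have : 0 ≤ ∑ j, ∑ b, |σ j b| :=
      Finset.sum_nonneg fun j _ => Finset.sum_nonneg fun b _ => abs_nonneg _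
    linarith
  set ρ : ℝ := (‖lam‖ + 1) + S * (‖θ‖ + δ) with hρ
  obtain ⟨A, hA, hA'⟩ := Pool.Agent.K3h55.UG.up G ρ
  obtain ⟨B, hB, hB'⟩ := Pool.Agent.K3h55.UG.up G' ρ
  have hlA : 0 ≤ Real.log (A + 1) := Real.log_nonneg (by linarith)
  have hlB : 0 ≤ Real.log (B + 1) := Real.log_nonneg (by linarith)
  refine ⟨min ε 1, |Real.log c| + Real.log (A + 1) + Real.log (B + 1) +
    (W * G.totalDegree : ℕ) + (W * G'.totalDegree : ℕ), R₁, lt_min hε one_pos, by positivity,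
    hR₁, ?_⟩
  intro R hR hR1 l hl t ht hF
  have hR0 : 0 < R := by linarith
  have hRW : R ≤ R ^ W := by
    calc R = R ^ 1 := (pow_one R).symm
      _ ≤ R ^ W := pow_le_pow_right₀ hR1 (by omega)
  have hRW0 : 1 ≤ R ^ W := one_le_pow₀ hR1
  have hl1 : l ∈ ball (cen e w R lam) (ε * R) :=
    ball_subset_ball (mul_le_mul_of_nonneg_right (min_le_left _ _) hR0.le) hl
  have hl2 : ‖l‖ ≤ R ^ W * (‖lam‖ + 1) := by
    have h0 : ‖l‖ ≤ ‖cen e w R lam‖ + ‖l - cen e w R lam‖ := norm_le_norm_add_norm_sub' l _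
    have h1 : ‖l - cen e w R lam‖ ≤ R := by
      rw [mem_ball, dist_eq_norm] at hl
      have := mul_le_mul_of_nonneg_right (min_le_right ε 1) hR0.le
      linarith
    have h2 : ‖cen e w R lam‖ ≤ R ^ W * ‖lam‖ := by
      rw [pi_norm_le_iff_of_nonneg (by positivity)]
      intro j
      unfold cen
      rw [norm_mul, Complex.norm_real, Real.norm_of_nonneg (by positivity)]
      apply mul_le_mul _ (norm_le_pi_norm lam j) (norm_nonneg _) (by positivity)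
      apply pow_le_pow_right₀ hR1
      have : w (e (Sum.inl j)) ≤ ∑ i, w i :=
        Finset.single_le_sum (fun i _ => Nat.zero_le _) (Finset.mem_univ _)
      omega
    nlinarith
  have htn : ‖t‖ ≤ R ^ W * (‖θ‖ + δ) := by
    rw [pi_norm_le_iff_of_nonneg (by positivity)]
    intro b
    have h0 : ‖t b‖ ≤ ‖(R : ℂ) * θ b‖ + ‖t b - R * θ b‖ := norm_le_norm_add_norm_sub' _ _
    rw [norm_mul, Complex.norm_real, Real.norm_of_nonneg hR0.le] at h0
    have h1 := ht b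
    have h2 := norm_le_pi_norm θ b
    have h3 : R * ‖θ b‖ ≤ R * ‖θ‖ := mul_le_mul_of_nonneg_left h2 hR0.le
    have h4 : R * (‖θ‖ + δ) ≤ R ^ W * (‖θ‖ + δ) :=
      mul_le_mul_of_nonneg_right hRW (by positivity)
    nlinarith
  have hx : ‖xr e σ l t‖ ≤ ρ * R ^ W := by
    refine (norm_xr_le e σ l t).trans ?_
    have h0 := mul_le_mul_of_nonneg_left htn hS0
    rw [hρ]
    nlinarith
  have hG := hA' (R ^ W) hRW0 _ hx
  have hG' := hB' (R ^ W) hRW0 _ hx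
  rw [← pow_mul] at hG hG'
  have hprod := hid _ _ hF
  have hlow' : c ≤ ‖eval (xr e σ l t) G‖ * ‖eval (xr e σ l t) G'‖ := by
    rw [← norm_mul, hprod]
    exact hlow R hR l hl1
  set g : ℝ := ‖eval (xr e σ l t) G‖ with hg
  set g' : ℝ := ‖eval (xr e σ l t) G'‖ with hg'
  have hgn : 0 ≤ g := norm_nonneg _
  have hgp : 0 < g := by
    rcases hgn.eq_or_lt with h0 | h0
    · rw [← h0, zero_mul] at hlow'
      linarith
    · exact h0
  refine ⟨norm_pos_iff.1 hgp, ?_⟩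
  have hL : 0 ≤ Real.log R := Real.log_nonneg hR1
  have hpow : (0 : ℝ) < R ^ (W * G.totalDegree) := by positivity
  have hpow' : (0 : ℝ) < R ^ (W * G'.totalDegree) := by positivity
  have hup : Real.log g ≤ Real.log (A + 1) + (W * G.totalDegree : ℕ) * Real.log R := by
    rw [← Real.log_pow, ← Real.log_mul (by positivity) (by positivity)]
    apply Real.log_le_log hgp
    nlinarith
  have hlo : Real.log c - Real.log (B + 1) - (W * G'.totalDegree : ℕ) * Real.log R ≤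
      Real.log g := by
    have h1 : c ≤ g * ((B + 1) * R ^ (W * G'.totalDegree)) := by
      refine hlow'.trans (mul_le_mul_of_nonneg_left ?_ hgn)
      nlinarith
    have h2 := Real.log_le_log hc0 h1
    rw [Real.log_mul hgp.ne' (by positivity), Real.log_mul (by positivity) (by positivity),
      Real.log_pow] at h2
    linarith
  have hn1 : (0 : ℝ) ≤ ((W * G.totalDegree : ℕ) : ℝ) := Nat.cast_nonneg _
  have hn2 : (0 : ℝ) ≤ ((W * G'.totalDegree : ℕ) : ℝ) := Nat.cast_nonneg _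
  have hab := neg_abs_le (Real.log c)
  have hab0 := abs_nonneg (Real.log c)
  have t1 := mul_nonneg hab0 hL
  have t2 := mul_nonneg hlA hL
  have t3 := mul_nonneg hlB hL
  have t4 := mul_nonneg hn1 hL
  have t5 := mul_nonneg hn2 hL
  rw [abs_le]
  constructor <;> nlinarith

theorem t_GEO6 : S_DIR6 → S_BR6 → S_TOP6 → S_NORM6 → S_GEO6 := by
  intro hDIR hBR hTOP hNORM n s r e w hw hwb F I hI hKG hV σ lam₀ θ₀ hgood T hT δ hδ
  -- the coordinates `l` are independent modulo `I`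
  have hind : ∀ h : MvPolynomial (Fin s) ℂ, h ≠ 0 → lsub e σ h ∉ I := by
    intro h hne hmem
    apply hne
    obtain ⟨ε, R₀, hε, hR₀, hψ⟩ := hBR n s r e w hw hwb F σ lam₀ θ₀ hgood 1 one_pos
    obtain ⟨ψ, -, h2⟩ := hψ R₀ le_rfl
    refine zero_of_ball h (cen e w R₀ lam₀) (ε * R₀) (by positivity) fun l hl => ?_
    have h3 := hV _ (h2 l hl).1 _ hmem
    rwa [eval_lsub] at h3
  choose! hh G' hne hmem using fun G (hG : G ∈ T) => hNORM n s r e σ I hI hKG hind G (hT G hG)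
  have hid : ∀ G ∈ T, ∀ (l : Fin s → ℂ) (t : Fin r → ℂ),
      (∀ i, eval (xr e σ l t) (F i) = 0) →
      eval (xr e σ l t) G * eval (xr e σ l t) (G' G) = eval l (hh G) := by
    intro G hG l t hF
    have h1 := hV _ hF _ (hmem G hG)
    rw [map_sub, map_mul, eval_lsub, sub_eq_zero] at h1
    exact h1
  have hv : ∀ j : Fin s, 1 ≤ w (e (Sum.inl j)) := fun j => hw _
  have htop := fun G (hG : G ∈ T) => hTOP s (fun j => w (e (Sum.inl j))) hv (hh G) (hne G hG)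
  have hQ0 : ∏ G ∈ T, wtop (fun j => w (e (Sum.inl j))) (hh G) ≠ 0 :=
    Finset.prod_ne_zero_iff.2 fun G hG => (htop G hG).1
  obtain ⟨lam, θ, hg, hθ, hQ⟩ := hDIR n s r e (fun i => wtop w (F i)) (sg e w σ) lam₀ θ₀ hgood _
    hQ0 (δ / 2) (by positivity)
  rw [map_prod, Finset.prod_ne_zero_iff] at hQ
  obtain ⟨ε, R₀, hε, hR₀, hψ⟩ := hBR n s r e w hw hwb F σ lam θ hg (δ / 2) (by positivity)
  obtain ⟨ε', C, R₁, hε', hC, hR₁, hPP⟩ := unif T (PP e w F σ lam θ (δ / 2)) (by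
      intro G ε C R₀ ε' C' R₀' hP h1 h2 h3 R hR hR1 l hl t ht hF
      have hR0 : 0 < R := by linarith
      have h4 := hP R (h3.trans hR) hR1 l
        (ball_subset_ball (mul_le_mul_of_nonneg_right h1 hR0.le) hl) t ht hF
      have hL : 0 ≤ Real.log R := Real.log_nonneg hR1
      exact ⟨h4.1, h4.2.trans (mul_le_mul_of_nonneg_right h2 (by linarith))⟩)
    (by
      intro G hG
      obtain ⟨ε₂, c, R₂, hε₂, hc, hR₂, hlow⟩ := (htop G hG).2 lam (hQ G hG)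
      exact one_poly e w F σ lam θ (δ / 2) (by positivity) G (G' G) (hh G) (hid G hG) ε₂ c R₂
        hε₂ hc hR₂ hlow)
  refine ⟨fun R => cen e w R lam, min ε ε', C, max R₀ R₁, ?_, lt_min hε hε', hC,
    hR₀.trans (le_max_left _ _), fun R hR => ?_⟩
  · intro R j
    unfold cen
    rw [Complex.re_ofReal_mul, hg.im j, mul_zero]
  have hR1 : R₀ ≤ R := (le_max_left _ _).trans hR
  have hR2 : R₁ ≤ R := (le_max_right _ _).trans hR
  have hR3 : 1 ≤ R := hR₀.trans hR1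
  have hR0 : 0 < R := by linarith
  obtain ⟨ψ, hψ1, hψ2⟩ := hψ R hR1
  have hsub : ball (cen e w R lam) (min ε ε' * R) ⊆ ball (cen e w R lam) (ε * R) :=
    ball_subset_ball (mul_le_mul_of_nonneg_right (min_le_left _ _) hR0.le)
  have hsub' : ball (cen e w R lam) (min ε ε' * R) ⊆ ball (cen e w R lam) (ε' * R) :=
    ball_subset_ball (mul_le_mul_of_nonneg_right (min_le_right _ _) hR0.le)
  refine ⟨ψ, fun b => (hψ1 b).mono hsub, fun l hl => ?_⟩
  obtain ⟨h1, h2⟩ := hψ2 l (hsub hl)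
  refine ⟨h1, fun b => ?_, fun G hG => hPP G hG R hR2 hR3 l (hsub' hl) (ψ l) h2 h1⟩
  have h3 := (Complex.abs_re_le_norm (ψ l b - R * θ b)).trans (h2 b)
  have h4 := (Complex.abs_re_le_norm (θ b - θ₀ b)).trans (hθ b)
  rw [Complex.sub_re, Complex.re_ofReal_mul] at h3
  rw [Complex.sub_re] at h4
  rw [abs_le] at h3 h4 ⊢
  constructor <;> nlinarith [h3.1, h3.2, h4.1, h4.2]

end Pool.Agent.K3h57.UG
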