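import Pool.Agent.K3h53.UG.Stm6
import Pool.Agent.K3h57.UG.Geo6

/-! UG project (helper53, MP_209724_lc), brick GEO7: the geometry of `F = 0`, `g ≠ 0` near a good
direction. -/

set_option autoImplicit false

namespace Pool.Agent.K3h57.UG

open MvPolynomial Filter Topology Metric Set Pool.Agent.K3h22.EX Pool.Agent.K3h53.UG

/-- the property of one polynomial -/
def PZ {n s r : ℕ} (e : Fin s ⊕ Fin r ≃ Fin n) (w : Fin n → ℕ)
    (Z : (Fin n → ℂ) → Prop) (σ : Fin s → Fin r → ℝ) (lam : Fin s → ℂ)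
    (θ : Fin r → ℂ) (δ : ℝ) (G : MvPolynomial (Fin n) ℂ) (ε C R₀ : ℝ) : Prop :=
  ∀ R : ℝ, R₀ ≤ R → 1 ≤ R → ∀ l ∈ ball (cen e w R lam) (ε * R), ∀ t : Fin r → ℂ,
    (∀ b, ‖t b - R * θ b‖ ≤ δ * R) → Z (xr e σ l t) →
      eval (xr e σ l t) G ≠ 0 ∧ |Real.log ‖eval (xr e σ l t) G‖| ≤ C * (1 + Real.log R)

theorem one_polyZ {n s r : ℕ} (e : Fin s ⊕ Fin r ≃ Fin n) (w : Fin n → ℕ)
    (Z : (Fin n → ℂ) → Prop) (σ : Fin s → Fin r → ℝ) (lam : Fin s → ℂ)
    (θ : Fin r → ℂ) (δ : ℝ) (hδ : 0 < δ) (G G' : MvPolynomial (Fin n) ℂ)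
    (h : MvPolynomial (Fin s) ℂ)
    (hid : ∀ (l : Fin s → ℂ) (t : Fin r → ℂ), Z (xr e σ l t) →
      eval (xr e σ l t) G * eval (xr e σ l t) G' = eval l h)
    (ε c R₁ : ℝ) (hε : 0 < ε) (hc0 : 0 < c) (hR₁ : 1 ≤ R₁)
    (hlow : ∀ R : ℝ, R₁ ≤ R → ∀ l ∈ ball (cen e w R lam) (ε * R), c ≤ ‖eval l h‖) :
    ∃ ε C R₀ : ℝ, 0 < ε ∧ 0 ≤ C ∧ 1 ≤ R₀ ∧ PZ e w Z σ lam θ δ G ε C R₀ := by
  obtain ⟨W, hW⟩ : ∃ W : ℕ, W = 1 + ∑ i, w i := ⟨_, rfl⟩
  set S : ℝ := 1 + ∑ j, ∑ b, |σ j b| with hS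
  have hS0 : 0 ≤ S := by
    have : 0 ≤ ∑ j, ∑ b, |σ j b| :=
      Finset.sum_nonneg fun j _ => Finset.sum_nonneg fun b _ => abs_nonneg _
    linarith
  set ρ : ℝ := (‖lam‖ + 1) + S * (‖θ‖ + δ) with hρ
  obtain ⟨A, hA, hA'⟩ := Pool.Agent.K3h55.UG.up G ρ
  obtain ⟨B, hB, hB'⟩ := Pool.Agent.K3h55.UG.up G' ρ
  have hlA : 0 ≤ Real.log (A + 1) := Real.log_nonneg (by linarith)
  have hlB : 0 ≤ Real.log (B + 1) := Real.log_nonneg (by linarith)
  refine ⟨min ε 1, |Real.log c| + Real.log (A + 1) + Real.log (B + 1) +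
    (W * G.totalDegree : ℕ) + (W * G'.totalDegree : ℕ), R₁, lt_min hε one_pos, by positivity,
    hR₁, ?_⟩
  intro R hR hR1 l hl t ht hF
  have hR0 : 0 < R := by linarith
  have hRW : R ≤ R ^ W := by
    calc R = R ^ 1 := (pow_one R).symm
      _ ≤ R ^ W := pow_le_pow_right₀ hR1 (by omega)
  have hRW0 : 1 ≤ R ^ W := one_le_pow₀ hR1
  have hl1 : l ∈ ball (cen e w R lam) (ε * R) :=
    ball_subset_ball (mul_le_mul_of_nonneg_right (min_le_left _ _) hR0.le) hl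
  have hl2 : ‖l‖ ≤ R ^ W * (‖lam‖ + 1) := by
    have h0 : ‖l‖ ≤ ‖cen e w R lam‖ + ‖l - cen e w R lam‖ := norm_le_norm_add_norm_sub' l _
    have h1 : ‖l - cen e w R lam‖ ≤ R := by
      rw [mem_ball, dist_eq_norm] at hl
      have := mul_le_mul_of_nonneg_right (min_le_right ε 1) hR0.le
      linarith
    have h2 : ‖cen e w R lam‖ ≤ R ^ W * ‖lam‖ := by
      rw [pi_norm_le_iff_of_nonneg (by positivity)]
      intro j
      unfold cen
      rw [norm_mul, Complex.norm_real, Real.norm_of_nonneg (by positivity)]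
      apply mul_le_mul _ (norm_le_pi_norm lam j) (norm_nonneg _) (by positivity)
      apply pow_le_pow_right₀ hR1
      have : w (e (Sum.inl j)) ≤ ∑ i, w i :=
        Finset.single_le_sum (fun i _ => Nat.zero_le _) (Finset.mem_univ _)
      omega
    nlinarith
  have htn : ‖t‖ ≤ R ^ W * (‖θ‖ + δ) := by
    rw [pi_norm_le_iff_of_nonneg (by positivity)]
    intro b
    have h0 : ‖t b‖ ≤ ‖(R : ℂ) * θ b‖ + ‖t b - R * θ b‖ := norm_le_norm_add_norm_sub' _ _
    rw [norm_mul, Complex.norm_real, Real.norm_of_nonneg hR0.le] at h0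
    have h1 := ht b
    have h2 := norm_le_pi_norm θ b
    have h3 : R * ‖θ b‖ ≤ R * ‖θ‖ := mul_le_mul_of_nonneg_left h2 hR0.le
    have h4 : R * (‖θ‖ + δ) ≤ R ^ W * (‖θ‖ + δ) :=
      mul_le_mul_of_nonneg_right hRW (by positivity)
    nlinarith
  have hx : ‖xr e σ l t‖ ≤ ρ * R ^ W := by
    refine (norm_xr_le e σ l t).trans ?_
    have h0 := mul_le_mul_of_nonneg_left htn hS0
    rw [hρ]
    nlinarith
  have hG := hA' (R ^ W) hRW0 _ hx
  have hG' := hB' (R ^ W) hRW0 _ hx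
  rw [← pow_mul] at hG hG'
  have hprod := hid _ _ hF
  have hlow' : c ≤ ‖eval (xr e σ l t) G‖ * ‖eval (xr e σ l t) G'‖ := by
    rw [← norm_mul, hprod]
    exact hlow R hR l hl1
  set g : ℝ := ‖eval (xr e σ l t) G‖ with hg
  set g' : ℝ := ‖eval (xr e σ l t) G'‖ with hg'
  have hgn : 0 ≤ g := norm_nonneg _
  have hgp : 0 < g := by
    rcases hgn.eq_or_lt with h0 | h0
    · rw [← h0, zero_mul] at hlow'
      linarith
    · exact h0
  refine ⟨norm_pos_iff.1 hgp, ?_⟩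
  have hL : 0 ≤ Real.log R := Real.log_nonneg hR1
  have hpow : (0 : ℝ) < R ^ (W * G.totalDegree) := by positivity
  have hpow' : (0 : ℝ) < R ^ (W * G'.totalDegree) := by positivity
  have hup : Real.log g ≤ Real.log (A + 1) + (W * G.totalDegree : ℕ) * Real.log R := by
    rw [← Real.log_pow, ← Real.log_mul (by positivity) (by positivity)]
    apply Real.log_le_log hgp
    nlinarith
  have hlo : Real.log c - Real.log (B + 1) - (W * G'.totalDegree : ℕ) * Real.log R ≤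
      Real.log g := by
    have h1 : c ≤ g * ((B + 1) * R ^ (W * G'.totalDegree)) := by
      refine hlow'.trans (mul_le_mul_of_nonneg_left ?_ hgn)
      nlinarith
    have h2 := Real.log_le_log hc0 h1
    rw [Real.log_mul hgp.ne' (by positivity), Real.log_mul (by positivity) (by positivity),
      Real.log_pow] at h2
    linarith
  have hn1 : (0 : ℝ) ≤ ((W * G.totalDegree : ℕ) : ℝ) := Nat.cast_nonneg _
  have hn2 : (0 : ℝ) ≤ ((W * G'.totalDegree : ℕ) : ℝ) := Nat.cast_nonneg _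
  have hab := neg_abs_le (Real.log c)
  have hab0 := abs_nonneg (Real.log c)
  have t1 := mul_nonneg hab0 hL
  have t2 := mul_nonneg hlA hL
  have t3 := mul_nonneg hlB hL
  have t4 := mul_nonneg hn1 hL
  have t5 := mul_nonneg hn2 hL
  rw [abs_le]
  constructor <;> nlinarith

theorem continuous_xr {n s r : ℕ} (e : Fin s ⊕ Fin r ≃ Fin n) (σ : Fin s → Fin r → ℝ) :
    Continuous fun x : (Fin s → ℂ) × (Fin r → ℂ) => xr e σ x.1 x.2 := by
  refine continuous_pi fun i => ?_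
  unfold xr
  rcases e.symm i with j | b
  · simp only [Sum.elim_inl]
    fun_prop
  · simp only [Sum.elim_inr]
    fun_prop

/-- nonvanishing of a polynomial near a weighted direction -/
theorem key (hTOP : S_TOP7) {n s r : ℕ} (e : Fin s ⊕ Fin r ≃ Fin n) (w : Fin n → ℕ)
    (hw : ∀ i, 1 ≤ w i) (hwb : ∀ b, w (e (Sum.inr b)) = 1) (g : MvPolynomial (Fin n) ℂ)
    (σ : Fin s → Fin r → ℝ) (lam : Fin s → ℂ) (θ : Fin r → ℂ)
    (hg : eval (xr e (sg e w σ) lam θ) (wtop w g) ≠ 0) :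
    ∃ δ R₀ : ℝ, 0 < δ ∧ 1 ≤ R₀ ∧ ∀ R : ℝ, R₀ ≤ R → ∀ l ∈ ball (cen e w R lam) (δ * R),
      ∀ t : Fin r → ℂ, (∀ b, ‖t b - R * θ b‖ ≤ δ * R) → eval (xr e σ l t) g ≠ 0 := by
  obtain ⟨ε, c, R₀, hε, hc, hR₀, h⟩ := hTOP n w hw g _ hg
  obtain ⟨S, hS⟩ : ∃ S : ℝ, S = ∑ j, ∑ b, |σ j b| := ⟨_, rfl⟩
  have hS0 : 0 ≤ S := by
    rw [hS]
    exact Finset.sum_nonneg fun j _ => Finset.sum_nonneg fun b _ => abs_nonneg _
  have hSj : ∀ j, ∑ b, |σ j b| ≤ S := by
    intro j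
    rw [hS]
    exact Finset.single_le_sum (f := fun j => ∑ b, |σ j b|)
      (fun j _ => Finset.sum_nonneg fun b _ => abs_nonneg _) (Finset.mem_univ j)
  have hsum : ∀ (j : Fin s) (z : Fin r → ℂ) (M : ℝ), (∀ b, ‖z b‖ ≤ M) → 0 ≤ M →
      ‖∑ b, ((σ j b : ℝ) : ℂ) * z b‖ ≤ S * M := by
    intro j z M hz hM
    refine (norm_sum_le _ _).trans ?_
    have h1 : ∑ b, ‖((σ j b : ℝ) : ℂ) * z b‖ ≤ ∑ b, |σ j b| * M := by
      refine Finset.sum_le_sum fun b _ => ?_
      rw [norm_mul, Complex.norm_real, Real.norm_eq_abs]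
      exact mul_le_mul_of_nonneg_left (hz b) (abs_nonneg _)
    refine h1.trans ?_
    rw [← Finset.sum_mul]
    exact mul_le_mul_of_nonneg_right (hSj j) hM
  obtain ⟨δ, hδ⟩ : ∃ δ : ℝ, δ = ε / (1 + S) := ⟨_, rfl⟩
  have hδ0 : 0 < δ := by rw [hδ]; positivity
  have hδS : (1 + S) * δ = ε := by
    rw [hδ]
    field_simp
  refine ⟨δ, max R₀ ((δ + S * (‖θ‖ + δ)) / ε), hδ0, hR₀.trans (le_max_left _ _), ?_⟩
  intro R hR l hl t ht
  have hR1 : R₀ ≤ R := (le_max_left _ _).trans hR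
  have hR2 : (δ + S * (‖θ‖ + δ)) / ε ≤ R := (le_max_right _ _).trans hR
  rw [div_le_iff₀ hε] at hR2
  have hR3 : 1 ≤ R := hR₀.trans hR1
  have hR0 : 0 < R := by linarith
  have hl' : ∀ j, ‖l j - cen e w R lam j‖ ≤ δ * R := by
    intro j
    rw [mem_ball, dist_eq_norm] at hl
    exact (norm_le_pi_norm (l - cen e w R lam) j).trans hl.le
  have hfin : c ≤ ‖eval (xr e σ l t) g‖ := by
    apply h R hR1
    intro i
    obtain ⟨x, rfl⟩ : ∃ x, i = e x := ⟨e.symm i, (e.apply_symm_apply i).symm⟩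
    unfold xr
    rw [Equiv.symm_apply_apply]
    rcases x with j | b
    · simp only [Sum.elim_inl]
      by_cases hj : w (e (Sum.inl j)) = 1
      · have e1 : l j + ∑ b, ((σ j b : ℝ) : ℂ) * t b - ((R ^ w (e (Sum.inl j)) : ℝ) : ℂ) *
            (lam j + ∑ b, ((sg e w σ j b : ℝ) : ℂ) * θ b) = (l j - cen e w R lam j) +
            ∑ b, ((σ j b : ℝ) : ℂ) * (t b - R * θ b) := by
          unfold cen sg
          simp only [hj, if_true, pow_one, mul_sub, Finset.sum_sub_distrib]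
          have e2 : ∑ b, ((σ j b : ℝ) : ℂ) * ((R : ℂ) * θ b) =
              (R : ℂ) * ∑ b, ((σ j b : ℝ) : ℂ) * θ b := by
            rw [Finset.mul_sum]
            exact Finset.sum_congr rfl fun b _ => by ring
          rw [e2]
          ring
        rw [e1, hj, pow_one]
        refine (norm_add_le _ _).trans ?_
        have h1 := hl' j
        have h2 := hsum j (fun b => t b - R * θ b) (δ * R) ht (by positivity)
        nlinarith
      · have hj2 : 2 ≤ w (e (Sum.inl j)) := by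
          have := hw (e (Sum.inl j))
          omega
        have e1 : l j + ∑ b, ((σ j b : ℝ) : ℂ) * t b - ((R ^ w (e (Sum.inl j)) : ℝ) : ℂ) *
            (lam j + ∑ b, ((sg e w σ j b : ℝ) : ℂ) * θ b) = (l j - cen e w R lam j) +
            ∑ b, ((σ j b : ℝ) : ℂ) * t b := by
          unfold cen sg
          simp only [hj, if_false, Complex.ofReal_zero, zero_mul, Finset.sum_const_zero, add_zero]
          ring
        rw [e1]
        refine (norm_add_le _ _).trans ?_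
        have h1 := hl' j
        have ht' : ∀ b, ‖t b‖ ≤ R * (‖θ‖ + δ) := by
          intro b
          have h0 : ‖t b‖ ≤ ‖(R : ℂ) * θ b‖ + ‖t b - R * θ b‖ := norm_le_norm_add_norm_sub' _ _
          rw [norm_mul, Complex.norm_real, Real.norm_of_nonneg hR0.le] at h0
          have h3 := mul_le_mul_of_nonneg_left (norm_le_pi_norm θ b) hR0.le
          have h4 := ht b
          nlinarith
        have h2 := hsum j t _ ht' (by positivity)
        have h3 : R ^ 2 ≤ R ^ w (e (Sum.inl j)) := pow_le_pow_right₀ hR3 hj2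
        have h4 : (δ + S * (‖θ‖ + δ)) * R ≤ (R * ε) * R :=
          mul_le_mul_of_nonneg_right hR2 hR0.le
        have h5 : ε * R ^ 2 ≤ ε * R ^ w (e (Sum.inl j)) := mul_le_mul_of_nonneg_left h3 hε.le
        nlinarith
    · simp only [Sum.elim_inr]
      rw [hwb b, pow_one]
      refine (ht b).trans ?_
      apply mul_le_mul_of_nonneg_right _ hR0.le
      nlinarith
  intro h0
  rw [h0, norm_zero] at hfin
  linarith

theorem t_GEO7 : S_DIR7 → S_BR6 → S_TOP6 → S_TOP7 → S_NORM6 → S_GEO7 := by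
  intro hDIR hBR hTOP hTOP7 hNORM n s r e w hw hwb F g I hI hKG hV σ lam₀ θ₀ hgood hg₀ T hT δ hδ
  -- the coordinates `l` are independent modulo `I`
  have hind : ∀ h : MvPolynomial (Fin s) ℂ, h ≠ 0 → lsub e σ h ∉ I := by
    intro h hne hmem
    apply hne
    obtain ⟨δ₁, R₁, hδ₁, hR₁, hk⟩ := key hTOP7 e w hw hwb g σ lam₀ θ₀ hg₀
    obtain ⟨ε, R₀, hε, hR₀, hψ⟩ := hBR n s r e w hw hwb F σ lam₀ θ₀ hgood δ₁ hδ₁
    have hR0 : 0 < max R₀ R₁ := lt_of_lt_of_le (by linarith) (le_max_left _ _)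
    obtain ⟨ψ, -, h2⟩ := hψ (max R₀ R₁) (le_max_left _ _)
    refine zero_of_ball h (cen e w (max R₀ R₁) lam₀) (min ε δ₁ * max R₀ R₁) (by positivity)
      fun l hl => ?_
    have hl1 := ball_subset_ball (mul_le_mul_of_nonneg_right (min_le_left ε δ₁) hR0.le) hl
    have hl2 := ball_subset_ball (mul_le_mul_of_nonneg_right (min_le_right ε δ₁) hR0.le) hl
    have h3 := hV _ (h2 l hl1).1 (hk _ (le_max_right _ _) l hl2 _ (h2 l hl1).2) _ hmem
    rwa [eval_lsub] at h3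
  choose! hh G' hne hmem using fun G (hG : G ∈ T) => hNORM n s r e σ I hI hKG hind G (hT G hG)
  have hid : ∀ G ∈ T, ∀ (l : Fin s → ℂ) (t : Fin r → ℂ),
      ((∀ i, eval (xr e σ l t) (F i) = 0) ∧ eval (xr e σ l t) g ≠ 0) →
      eval (xr e σ l t) G * eval (xr e σ l t) (G' G) = eval l (hh G) := by
    intro G hG l t hF
    have h1 := hV _ hF.1 hF.2 _ (hmem G hG)
    rw [map_sub, map_mul, eval_lsub, sub_eq_zero] at h1
    exact h1
  have hv : ∀ j : Fin s, 1 ≤ w (e (Sum.inl j)) := fun j => hw _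
  have htop := fun G (hG : G ∈ T) => hTOP s (fun j => w (e (Sum.inl j))) hv (hh G) (hne G hG)
  have hQ0 : ∏ G ∈ T, wtop (fun j => w (e (Sum.inl j))) (hh G) ≠ 0 :=
    Finset.prod_ne_zero_iff.2 fun G hG => (htop G hG).1
  -- the directions near the given one
  obtain ⟨f, hf⟩ : ∃ f : (Fin s → ℂ) × (Fin r → ℂ) → ℂ, f = fun x =>
      eval (xr e (sg e w σ) x.1 x.2) (wtop w g) := ⟨_, rfl⟩
  have hfx : ∀ a b, f (a, b) = eval (xr e (sg e w σ) a b) (wtop w g) := fun a b => by rw [hf]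
  have hcont : Continuous f := by
    rw [hf]
    exact (MvPolynomial.continuous_eval (wtop w g)).comp (continuous_xr e (sg e w σ))
  have hf₀ : f (lam₀, θ₀) ≠ 0 := by
    rw [hfx]
    exact hg₀
  obtain ⟨η, hη, hη'⟩ := Metric.eventually_nhds_iff.1 (hcont.continuousAt.eventually_ne hf₀)
  obtain ⟨lam, θ, hg, hlam, hθ, hQ⟩ := hDIR n s r e (fun i => wtop w (F i)) (sg e w σ) lam₀ θ₀
    hgood _ hQ0 (min (δ / 2) (η / 2)) (by positivity)
  have hg₁ : eval (xr e (sg e w σ) lam θ) (wtop w g) ≠ 0 := by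
    have hmem2 : dist ((lam, θ) : (Fin s → ℂ) × (Fin r → ℂ)) (lam₀, θ₀) < η := by
      rw [Prod.dist_eq]
      refine max_lt ?_ ?_
      · refine lt_of_le_of_lt ?_ (half_lt_self hη)
        rw [dist_eq_norm, pi_norm_le_iff_of_nonneg (by positivity)]
        exact fun j => (hlam j).trans (min_le_right _ _)
      · refine lt_of_le_of_lt ?_ (half_lt_self hη)
        rw [dist_eq_norm, pi_norm_le_iff_of_nonneg (by positivity)]
        exact fun b => (hθ b).trans (min_le_right _ _)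
    have h9 := hη' hmem2
    rw [hfx] at h9
    exact h9
  rw [map_prod, Finset.prod_ne_zero_iff] at hQ
  obtain ⟨δ₂, R₂, hδ₂, hR₂, hk⟩ := key hTOP7 e w hw hwb g σ lam θ hg₁
  obtain ⟨ε, R₀, hε, hR₀, hψ⟩ := hBR n s r e w hw hwb F σ lam θ hg (min (δ / 2) δ₂)
    (by positivity)
  obtain ⟨ε', C, R₁, hε', hC, hR₁, hPP⟩ := unif T (PZ e w (fun x => (∀ i, eval x (F i) = 0) ∧
      eval x g ≠ 0) σ lam θ (δ / 2)) (by
      intro G ε C R₀ ε' C' R₀' hP h1 h2 h3 R hR hR1 l hl t ht hF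
      have hR0 : 0 < R := by linarith
      have h4 := hP R (h3.trans hR) hR1 l
        (ball_subset_ball (mul_le_mul_of_nonneg_right h1 hR0.le) hl) t ht hF
      have hL : 0 ≤ Real.log R := Real.log_nonneg hR1
      exact ⟨h4.1, h4.2.trans (mul_le_mul_of_nonneg_right h2 (by linarith))⟩)
    (by
      intro G hG
      obtain ⟨ε₂, c, R₂, hε₂, hc, hR₂, hlow⟩ := (htop G hG).2 lam (hQ G hG)
      exact one_polyZ e w _ σ lam θ (δ / 2) (by positivity) G (G' G) (hh G) (hid G hG) ε₂ c R₂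
        hε₂ hc hR₂ hlow)
  refine ⟨fun R => cen e w R lam, min (min ε ε') δ₂, C, max (max R₀ R₁) R₂, ?_, by positivity, hC,
    hR₂.trans (le_max_right _ _), fun R hR => ?_⟩
  · intro R j
    unfold cen
    rw [Complex.re_ofReal_mul, hg.im j, mul_zero]
  have hR1 : R₀ ≤ R := ((le_max_left _ _).trans (le_max_left _ _)).trans hR
  have hR2 : R₁ ≤ R := ((le_max_right _ _).trans (le_max_left _ _)).trans hR
  have hR2' : R₂ ≤ R := (le_max_right _ _).trans hR
  have hR3 : 1 ≤ R := hR₀.trans hR1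
  have hR0 : 0 < R := by linarith
  obtain ⟨ψ, hψ1, hψ2⟩ := hψ R hR1
  have hsub : ball (cen e w R lam) (min (min ε ε') δ₂ * R) ⊆ ball (cen e w R lam) (ε * R) :=
    ball_subset_ball (mul_le_mul_of_nonneg_right
      ((min_le_left _ _).trans (min_le_left _ _)) hR0.le)
  have hsub' : ball (cen e w R lam) (min (min ε ε') δ₂ * R) ⊆ ball (cen e w R lam) (ε' * R) :=
    ball_subset_ball (mul_le_mul_of_nonneg_right
      ((min_le_left _ _).trans (min_le_right _ _)) hR0.le)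
  have hsub2 : ball (cen e w R lam) (min (min ε ε') δ₂ * R) ⊆ ball (cen e w R lam) (δ₂ * R) :=
    ball_subset_ball (mul_le_mul_of_nonneg_right (min_le_right _ _) hR0.le)
  refine ⟨ψ, fun b => (hψ1 b).mono hsub, fun l hl => ?_⟩
  obtain ⟨h1, h2⟩ := hψ2 l (hsub hl)
  have h2a : ∀ b, ‖ψ l b - R * θ b‖ ≤ δ / 2 * R := fun b =>
    (h2 b).trans (mul_le_mul_of_nonneg_right (min_le_left _ _) hR0.le)
  have h2b : ∀ b, ‖ψ l b - R * θ b‖ ≤ δ₂ * R := fun b =>
    (h2 b).trans (mul_le_mul_of_nonneg_right (min_le_right _ _) hR0.le)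
  have hgn := hk R hR2' l (hsub2 hl) (ψ l) h2b
  refine ⟨⟨h1, hgn⟩, fun b => ?_, fun G hG => hPP G hG R hR2 hR3 l (hsub' hl) (ψ l) h2a
    ⟨h1, hgn⟩⟩
  have h3 := (Complex.abs_re_le_norm (ψ l b - R * θ b)).trans (h2a b)
  have h4 := (Complex.abs_re_le_norm (θ b - θ₀ b)).trans ((hθ b).trans (min_le_left _ _))
  rw [Complex.sub_re, Complex.re_ofReal_mul] at h3
  rw [Complex.sub_re] at h4
  rw [abs_le] at h3 h4 ⊢
  constructor <;> nlinarith [h3.1, h3.2, h4.1, h4.2]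

end Pool.Agent.K3h57.UG
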